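import Pool.Agent.H92.SG.Stmts

/-!
# Module SAT of the board sg7: saturation of the image of an injective map over a PID
-/

namespace Pool.Agent.H69.SG

open Pool.Agent.H92.SG

/-- The saturation of the range of `f` with respect to `π`. -/
def satSub {O : Type} [CommRing O] (π : O) {ε κ : Type}
    (f : (ε → O) →ₗ[O] (κ → O)) : Submodule O (κ → O) where
  carrier := {z | ∃ n : ℕ, π ^ n • z ∈ LinearMap.range f}
  zero_mem' := ⟨0, by simp⟩
  add_mem' := by
    rintro a b ⟨n, ha⟩ ⟨m, hb⟩
    refine ⟨n + m, ?_⟩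
    have h : π ^ (n + m) • (a + b) = π ^ m • (π ^ n • a) + π ^ n • (π ^ m • b) := by
      rw [smul_add, smul_smul, smul_smul, ← pow_add, ← pow_add, add_comm m n]
    rw [h]
    exact Submodule.add_mem _ (Submodule.smul_mem _ _ ha) (Submodule.smul_mem _ _ hb)
  smul_mem' := by
    rintro c a ⟨n, ha⟩
    refine ⟨n, ?_⟩
    rw [smul_comm]
    exact Submodule.smul_mem _ _ ha

theorem SAT_thm : SatStmt := by
  intro O k _ _ _ _ red π hsurj hπ hred ε κ _ _ _ _ f hf
  classical
  let Zs : Submodule O (κ → O) := satSub π f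
  have hmem : ∀ z : κ → O, z ∈ Zs ↔ ∃ n : ℕ, π ^ n • z ∈ LinearMap.range f := fun z => Iff.rfl
  obtain ⟨r, b⟩ := Submodule.basisOfPid (Pi.basisFun O κ) Zs
  -- the reductions of the basis vectors
  let v : Fin r → (κ → k) := fun i p => red ((b i : κ → O) p)
  -- key: reduction of combos
  have hcomb : ∀ a : Fin r → O, ∀ p, red ((∑ i, a i • (b i : κ → O)) p) =
      (∑ i, red (a i) • v i) p := by
    intro a p
    simp only [Finset.sum_apply, Pi.smul_apply, smul_eq_mul, map_sum, map_mul, v]
  have hli : LinearIndependent k v := by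
    rw [Fintype.linearIndependent_iff]
    intro c hc i
    choose a ha using fun i => hsurj (c i)
    have hz0 : ∀ p, π ∣ (∑ i, a i • (b i : κ → O)) p := by
      intro p
      rw [← hred, hcomb]
      have : (∑ i, red (a i) • v i) = 0 := by
        rw [← hc]; simp only [ha]
      rw [this]; rfl
    choose z1 hz1 using hz0
    have hzeq : (∑ i, a i • (b i : κ → O)) = π • z1 := by
      funext p; rw [hz1 p]; rfl
    have hzmem : (∑ i, a i • (b i : κ → O)) ∈ Zs :=
      Submodule.sum_mem _ fun i _ => Submodule.smul_mem _ _ (b i).2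
    have hz1mem : z1 ∈ Zs := by
      obtain ⟨n, hn⟩ := (hmem _).1 hzmem
      refine (hmem _).2 ⟨n + 1, ?_⟩
      rw [pow_succ, mul_smul, ← hzeq]; exact hn
    have h1 : (∑ i, a i • b i : Zs) = π • (⟨z1, hz1mem⟩ : Zs) := by
      apply Subtype.ext
      rw [Submodule.coe_smul]
      simp only [Submodule.coe_sum, Submodule.coe_smul]
      exact hzeq
    have h2 : b.repr (∑ i, a i • b i) i = a i := by
      rw [b.repr_sum_self]
    have h3 : a i = π * b.repr ⟨z1, hz1mem⟩ i := by
      rw [← h2, h1, map_smul, Finsupp.smul_apply, smul_eq_mul]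
    rw [← ha, hred]
    exact ⟨_, h3⟩
  refine ⟨Submodule.span k (Set.range v), ?_, ?_⟩
  · rw [finrank_span_eq_card hli, Fintype.card_fin]
    have hle : ∀ x, f x ∈ Zs := fun x => (hmem _).2 ⟨0, by simp⟩
    have h1 : Module.finrank O (ε → O) ≤ Module.finrank O Zs := by
      have : Module.Finite O Zs := Module.Finite.of_basis b
      refine LinearMap.finrank_le_finrank_of_injective (f := f.codRestrict Zs hle) ?_
      intro x y hxy
      apply hf
      exact congrArg Subtype.val hxy
    rwa [Module.finrank_fintype_fun_eq_card, Module.finrank_eq_card_basis b,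
      Fintype.card_fin] at h1
  · intro zb hzb
    obtain ⟨c, hc⟩ := (Submodule.mem_span_range_iff_exists_fun k).1 hzb
    choose a ha using fun i => hsurj (c i)
    have hzmem : (∑ i, a i • (b i : κ → O)) ∈ Zs :=
      Submodule.sum_mem _ fun i _ => Submodule.smul_mem _ _ (b i).2
    obtain ⟨n, e, he⟩ := (hmem _).1 hzmem
    refine ⟨∑ i, a i • (b i : κ → O), n, e, ?_, ?_⟩
    · intro p
      rw [hcomb, ← hc]
      simp only [ha]
    · intro p
      have := congrFun he p
      rw [this]; rfl

end Pool.Agent.H69.SG
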